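import Pool.Agent.Y395.RS.Stm

set_option autoImplicit false

/-!
# Project RS: the probability of a small piece at `x` (job RS-SMALL)
-/

namespace Pool.Agent.Y438.RS

open Finset Pool.Agent.H234RC Pool.Agent.TH953.RC Pool.Agent.Y395.RS

theorem cnt_fail {α : Type} [DecidableEq α] (B : Finset α) (P : Finset α → Prop) (F1 : Finset α)
    (h1 : F1 ⊆ B) (h2 : ¬ P F1) (h3 : B.card ≤ 2) : cnt B P ≤ 3 / 4 * 2 ^ B.card := by
  classical
  rw [cnt_eq]
  have hsub : B.powerset.filter P ⊆ B.powerset.erase F1 := by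
    intro F hF
    rw [mem_filter] at hF
    rw [mem_erase]
    exact ⟨fun e => h2 (e ▸ hF.2), hF.1⟩
  have hc := card_le_card hsub
  rw [card_erase_of_mem (mem_powerset.2 h1), card_powerset] at hc
  have h5 : (2:ℝ) ^ B.card ≤ 4 := by
    calc (2:ℝ) ^ B.card ≤ 2 ^ 2 := pow_le_pow_right₀ (by norm_num) h3
      _ = 4 := by norm_num
  have h6 : (((B.powerset.filter P).card : ℕ) : ℝ) ≤ 2 ^ B.card - 1 := by
    have h8 : (1 : ℕ) ≤ 2 ^ B.card := Nat.one_le_two_pow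
    have h7 : (((B.powerset.filter P).card : ℕ) : ℝ) ≤ ((2 ^ B.card - 1 : ℕ) : ℝ) := by
      exact_mod_cast hc
    rw [Nat.cast_sub h8] at h7
    push_cast at h7
    exact h7
  linarith

theorem blk {α : Type} [DecidableEq α] {V : Type} (E : Finset α) (N : Finset V)
    (B : V → Finset α) (P : V → Finset α → Prop) (F1 : V → Finset α)
    (hB : ∀ z ∈ N, B z ⊆ E) (hd : ∀ i ∈ N, ∀ j ∈ N, i ≠ j → Disjoint (B i) (B j))
    (h1 : ∀ z ∈ N, F1 z ⊆ B z) (h2 : ∀ z ∈ N, ¬ P z (F1 z)) (h3 : ∀ z ∈ N, (B z).card ≤ 2) :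
    cnt E (fun F => ∀ z ∈ N, P z (F ∩ B z)) ≤ (3 / 4) ^ N.card * 2 ^ E.card := by
  have := cnt_blocks E N B P (fun _ => 3 / 4) hB hd fun z hz =>
    cnt_fail (B z) (P z) (F1 z) (h1 z hz) (h2 z hz) (h3 z hz)
  rwa [prod_const] at this

theorem main : SMALL := by
  intro V _ _ G Q d D1 K0 x hxQ hd hD1 hD1' hK0
  obtain ⟨N1, hN1, hN1c⟩ := exists_subset_card_eq hd
  have hN1adj : ∀ z ∈ N1, z ∈ Q ∧ G.Adj x z := fun z hz => (mem_nb G Q x z).1 (hN1 hz)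
  have hx1 : x ∉ N1 := fun h => (hN1adj x h).2.ne rfl
  obtain ⟨E, hE⟩ : ∃ E, E = ed G := ⟨_, rfl⟩
  obtain ⟨Y0, hY0⟩ : ∃ Y0, Y0 = (N1.biUnion (fun z => nb G univ z)).erase x := ⟨_, rfl⟩
  obtain ⟨I1, hI1⟩ : ∃ I1, I1 = powersetCard (K0 + 1) N1 := ⟨_, rfl⟩
  rw [← hE]
  -- the two events
  have key : ∀ F, F ⊆ E → Small Q K0 x F →
      (∃ R ∈ I1, ∀ z ∈ N1 \ R, s(x, z) ∉ F ∩ {s(x, z)}) ∨
      (∃ p ∈ Y0 ×ˢ I1, ∀ z ∈ N1 \ p.2, (s(x, z) ∈ F ∩ (({s(x, z), s(p.1, z)} : Finset (Sym2 V)) ∩ E)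
        → s(p.1, z) ∈ F ∩ (({s(x, z), s(p.1, z)} : Finset (Sym2 V)) ∩ E))) := by
    rintro F hF ⟨φ, K, hna, hx1', hx2', hmov, hxK, hKc, hfix⟩
    rw [hE] at hF
    obtain ⟨R0, hR0⟩ : ∃ R0, R0 = N1 ∩ (K ∪ {φ.2.1, φ.2.2}) := ⟨_, rfl⟩
    have hR0c : R0.card ≤ K0 + 1 := by
      have h1 : R0 ⊆ K.erase x ∪ {φ.2.1, φ.2.2} := by
        intro z hz
        rw [hR0, mem_inter, mem_union] at hz
        rw [mem_union, mem_erase]
        rcases hz.2 with h | h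
        · exact Or.inl ⟨fun e => hx1 (e ▸ hz.1), h⟩
        · exact Or.inr h
      have h2 := (card_le_card h1).trans (card_union_le _ _)
      have h3 := card_erase_of_mem hxK
      have h4 : ({φ.2.1, φ.2.2} : Finset V).card ≤ 2 := card_le_two
      have h5 : 0 < K.card := card_pos.2 ⟨x, hxK⟩
      omega
    obtain ⟨R, hR1, hR2, hR3⟩ := exists_subsuperset_card_eq (s := R0) (t := N1) (n := K0 + 1)
      (by rw [hR0]; exact inter_subset_left) hR0c (by omega)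
    have hRI : R ∈ I1 := by
      rw [hI1]
      exact mem_powersetCard.2 ⟨hR2, hR3⟩
    have hstep : ∀ z ∈ N1 \ R, s(x, z) ∈ F → s(φ.1 x, z) ∈ F := by
      intro z hz hxz
      rw [mem_sdiff] at hz
      have hzR : z ∉ R0 := fun h => hz.2 (hR1 h)
      rw [hR0, mem_inter, mem_union, mem_insert, mem_singleton] at hzR
      have a1 : z ∉ K := fun h => hzR ⟨hz.1, Or.inl h⟩
      have a2 : z ≠ φ.2.1 := fun h => hzR ⟨hz.1, Or.inr (Or.inl h)⟩
      have a3 : z ≠ φ.2.2 := fun h => hzR ⟨hz.1, Or.inr (Or.inr h)⟩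
      have hadj : (gr F).Adj x z := (gr_adj_of hF x z).2 hxz
      have hz1 := hfix z (hN1adj z hz.1).1 a1 a2 a3 hadj
      have h1 := (hna x z hx1' hx2' a2 a3).2 hadj
      rw [hz1] at h1
      exact (gr_adj_of hF _ _).1 h1
    by_cases hc : ∃ z ∈ N1 \ R, s(x, z) ∈ F
    · right
      obtain ⟨z0, hz0, hz0F⟩ := hc
      have hyz0 := hstep z0 hz0 hz0F
      have hGadj := (mem_ed G _ _).1 (hF hyz0)
      have hyY : φ.1 x ∈ Y0 := by
        rw [hY0, mem_erase, mem_biUnion]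
        exact ⟨hmov, z0, (mem_sdiff.1 hz0).1, (mem_nb _ _ _ _).2 ⟨mem_univ _, hGadj.symm⟩⟩
      refine ⟨(φ.1 x, R), mem_product.2 ⟨hyY, hRI⟩, fun z hz h => ?_⟩
      have h1 := hstep z hz (mem_inter.1 h).1
      rw [mem_inter, mem_inter, hE]
      exact ⟨h1, mem_insert_of_mem (mem_singleton_self _), hF h1⟩
    · left
      push Not at hc
      exact ⟨R, hRI, fun z hz h => hc z hz (mem_inter.1 h).1⟩
  -- sizes
  have hsd : ∀ R ∈ I1, (N1 \ R).card = d - (K0 + 1) := by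
    intro R hR
    rw [hI1, mem_powersetCard] at hR
    rw [card_sdiff_of_subset hR.1, hR.2, hN1c]
  have hI1c : (I1.card : ℝ) ≤ ((d : ℝ) + 1) ^ (K0 + 1) := by
    rw [hI1, card_powersetCard, hN1c]
    have h1 := Nat.choose_le_pow d (K0 + 1)
    have h2 : ((d.choose (K0 + 1) : ℕ) : ℝ) ≤ (d : ℝ) ^ (K0 + 1) := by exact_mod_cast h1
    refine h2.trans (pow_le_pow_left₀ (Nat.cast_nonneg _) (by linarith) _)
  have hY0c : (Y0.card : ℝ) ≤ d * D1 := by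
    have h1 : Y0.card ≤ d * D1 := by
      rw [hY0]
      refine (card_erase_le).trans ?_
      rw [← hN1c]
      exact card_biUnion_le_card_mul _ _ _ fun z hz => hD1 z (hN1adj z hz).1
    exact_mod_cast h1
  -- the two bounds
  have b1 : ∀ R ∈ I1, cnt E (fun F => ∀ z ∈ N1 \ R, s(x, z) ∉ F ∩ {s(x, z)}) ≤
      (3 / 4) ^ (d - (K0 + 1)) * 2 ^ E.card := by
    intro R hR
    rw [← hsd R hR]
    refine blk E (N1 \ R) (fun z => {s(x, z)}) (fun z F => s(x, z) ∉ F) (fun z => {s(x, z)})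
      (fun z hz => ?_) (fun i hi j hj hij => ?_) (fun z _ => Subset.refl _) (fun z _ h => ?_)
      (fun z _ => ?_)
    · rw [singleton_subset_iff, hE, mem_ed]
      exact (hN1adj z (mem_sdiff.1 hz).1).2
    · rw [disjoint_singleton]
      intro e
      exact hij (Sym2.congr_right.1 e)
    · exact h (mem_singleton_self _)
    · rw [card_singleton]
      norm_num
  have b2 : ∀ p ∈ Y0 ×ˢ I1, cnt E (fun F => ∀ z ∈ N1 \ p.2,
      (s(x, z) ∈ F ∩ (({s(x, z), s(p.1, z)} : Finset (Sym2 V)) ∩ E)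
        → s(p.1, z) ∈ F ∩ (({s(x, z), s(p.1, z)} : Finset (Sym2 V)) ∩ E))) ≤
      (3 / 4) ^ (d - (K0 + 1)) * 2 ^ E.card := by
    rintro ⟨y, R⟩ hp
    obtain ⟨hy, hR⟩ := mem_product.1 hp
    have hyx : y ≠ x := by
      rw [hY0] at hy
      exact (mem_erase.1 hy).1
    have hR' : R ∈ I1 := hR
    rw [← hsd R hR']
    refine blk E (N1 \ R) (fun z => ({s(x, z), s(y, z)} : Finset (Sym2 V)) ∩ E)
      (fun z F => s(x, z) ∈ F → s(y, z) ∈ F) (fun z => {s(x, z)})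
      (fun z hz => inter_subset_right) (fun i hi j hj hij => ?_) (fun z hz => ?_)
      (fun z hz h => ?_) (fun z _ => ?_)
    · rw [disjoint_left]
      intro a ha hb
      rw [mem_inter, mem_insert, mem_singleton] at ha hb
      have hix : x ≠ i := fun e => hx1 (e ▸ (mem_sdiff.1 hi).1)
      have hjx : x ≠ j := fun e => hx1 (e ▸ (mem_sdiff.1 hj).1)
      rcases ha.1 with e1 | e1 <;> rcases hb.1 with e2 | e2
      · exact hij (Sym2.congr_right.1 (e1.symm.trans e2))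
      · have := Sym2.eq_iff.1 (e1.symm.trans e2)
        rcases this with ⟨h1, -⟩ | ⟨h1, -⟩
        · exact hyx h1.symm
        · exact hjx h1
      · have := Sym2.eq_iff.1 (e1.symm.trans e2)
        rcases this with ⟨h1, -⟩ | ⟨-, h1⟩
        · exact hyx h1
        · exact hix h1.symm
      · exact hij (Sym2.congr_right.1 (e1.symm.trans e2))
    · rw [singleton_subset_iff, mem_inter, hE, mem_ed]
      exact ⟨mem_insert_self _ _, (hN1adj z (mem_sdiff.1 hz).1).2⟩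
    · have h1 := mem_singleton.1 (h (mem_singleton_self _))
      exact hyx (Sym2.congr_left.1 h1)
    · exact (card_le_card inter_subset_left).trans card_le_two
  -- the sum
  have hm1 := cnt_mono key
  have hm2 := cnt_ex E I1 (fun R F => ∀ z ∈ N1 \ R, s(x, z) ∉ F ∩ {s(x, z)})
  have hm3 := cnt_ex E (Y0 ×ˢ I1) (fun p F => ∀ z ∈ N1 \ p.2,
      (s(x, z) ∈ F ∩ (({s(x, z), s(p.1, z)} : Finset (Sym2 V)) ∩ E)
        → s(p.1, z) ∈ F ∩ (({s(x, z), s(p.1, z)} : Finset (Sym2 V)) ∩ E)))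
  have hs1 := sum_le_card_nsmul I1 _ _ b1
  have hs2 := sum_le_card_nsmul (Y0 ×ˢ I1) _ _ b2
  have hor := cnt_or E (fun F => ∃ R ∈ I1, ∀ z ∈ N1 \ R, s(x, z) ∉ F ∩ {s(x, z)})
    (fun F => ∃ p ∈ Y0 ×ˢ I1, ∀ z ∈ N1 \ p.2,
      (s(x, z) ∈ F ∩ (({s(x, z), s(p.1, z)} : Finset (Sym2 V)) ∩ E)
        → s(p.1, z) ∈ F ∩ (({s(x, z), s(p.1, z)} : Finset (Sym2 V)) ∩ E)))
  rw [nsmul_eq_mul] at hs1 hs2
  rw [card_product] at hs2
  push_cast at hs2
  refine hm1.trans (hor.trans ((add_le_add (hm2.trans hs1) (hm3.trans hs2)).trans ?_))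
  obtain ⟨c, hc⟩ : ∃ c : ℝ, c = (3 / 4) ^ (d - K0 - 3) * 2 ^ E.card := ⟨_, rfl⟩
  have hc0 : 0 ≤ c := by rw [hc]; positivity
  have hcc : (3 / 4 : ℝ) ^ (d - (K0 + 1)) * 2 ^ E.card ≤ c := by
    rw [hc]
    refine mul_le_mul_of_nonneg_right ?_ (by positivity)
    exact pow_le_pow_of_le_one (by norm_num) (by norm_num) (by omega)
  have hcc0 : (0:ℝ) ≤ (3 / 4 : ℝ) ^ (d - (K0 + 1)) * 2 ^ E.card := by positivity
  have hD : (1:ℝ) ≤ D1 := by exact_mod_cast hD1'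
  have hd0 : (0:ℝ) ≤ d := Nat.cast_nonneg _
  obtain ⟨u, hu⟩ : ∃ u : ℝ, u = (I1.card : ℝ) := ⟨_, rfl⟩
  have hu0 : 0 ≤ u := by rw [hu]; exact Nat.cast_nonneg _
  calc _ = (1 + (Y0.card : ℝ)) * (I1.card : ℝ) * ((3 / 4 : ℝ) ^ (d - (K0 + 1)) * 2 ^ E.card) := by
        ring
    _ ≤ (1 + (d : ℝ) * D1) * ((d : ℝ) + 1) ^ (K0 + 1) * c := by
        apply mul_le_mul _ hcc hcc0 (by positivity)
        apply mul_le_mul _ hI1c (Nat.cast_nonneg _) (by positivity)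
        linarith
    _ ≤ (D1 * ((d : ℝ) + 1)) * ((d : ℝ) + 1) ^ (K0 + 1) * c := by
        apply mul_le_mul_of_nonneg_right _ hc0
        apply mul_le_mul_of_nonneg_right _ (by positivity)
        nlinarith
    _ = D1 * ((d : ℝ) + 1) ^ (K0 + 2) * c := by ring
    _ ≤ 2 * D1 * ((d : ℝ) + 1) ^ (K0 + 3) * c := by
        apply mul_le_mul_of_nonneg_right _ hc0
        have h1 : ((d : ℝ) + 1) ^ (K0 + 2) ≤ ((d : ℝ) + 1) ^ (K0 + 3) :=
          pow_le_pow_right₀ (by linarith) (by omega)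
        have h2 : (0:ℝ) ≤ ((d : ℝ) + 1) ^ (K0 + 3) := by positivity
        nlinarith
    _ = _ := by rw [hc]; ring

end Pool.Agent.Y438.RS
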